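import Pool.Agent.H73.GWQ.Stmts3

/-!
Row PTD of board gwq: distances in the graph of a parent function.
-/

set_option autoImplicit false

namespace GWQ

theorem ptd_lv {W : Type*} (lv : W → ℕ) (par : W → W)
    (hp : ∀ w, 0 < lv w → lv (par w) + 1 = lv w) (u : W) (i : ℕ) (hi : i ≤ lv u) :
    lv (par^[i] u) + i = lv u := by
  induction i with
  | zero => simp
  | succ i ih =>
    have h1 := ih (by omega)
    have h2 := hp (par^[i] u) (by omega)
    rw [Function.iterate_succ_apply']
    omega

theorem ptd_adj {W : Type*} (lv : W → ℕ) (par : W → W)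
    (hp : ∀ w, 0 < lv w → lv (par w) + 1 = lv w) (u : W) (hu : 0 < lv u) :
    (PTG lv par).Adj u (par u) := by
  rw [PTG, SimpleGraph.fromRel_adj]
  refine ⟨?_, Or.inl ⟨hu, rfl⟩⟩
  intro h
  have h1 := hp u hu
  rw [← h] at h1
  omega

theorem ptd_walk {W : Type*} (lv : W → ℕ) (par : W → W)
    (hp : ∀ w, 0 < lv w → lv (par w) + 1 = lv w) {u v : W} (p : (PTG lv par).Walk u v) :
    ∃ i j : ℕ, i ≤ lv u ∧ j ≤ lv v ∧ par^[i] u = par^[j] v ∧ i + j ≤ p.length := by
  induction p with
  | nil => exact ⟨0, 0, by omega, by omega, rfl, by simp⟩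
  | @cons u u' v h p ih =>
    obtain ⟨i, j, hi, hj, hij, hl⟩ := ih
    rw [PTG, SimpleGraph.fromRel_adj] at h
    rw [SimpleGraph.Walk.length_cons]
    rcases h.2 with ⟨h0, h1⟩ | ⟨h0, h1⟩
    · refine ⟨i + 1, j, ?_, hj, ?_, by omega⟩
      · have := hp u h0
        rw [h1] at this
        omega
      · rw [Function.iterate_succ_apply, h1, hij]
    · rcases Nat.eq_zero_or_pos i with h2 | h2
      · subst h2
        simp only [Function.iterate_zero, id_eq] at hij
        refine ⟨0, j + 1, by omega, ?_, ?_, by omega⟩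
        · have h3 := ptd_lv lv par hp v j hj
          rw [← hij] at h3
          omega
        · rw [Function.iterate_succ_apply', ← hij, h1]
          rfl
      · obtain ⟨k, rfl⟩ : ∃ k, i = k + 1 := ⟨i - 1, by omega⟩
        refine ⟨k, j, ?_, hj, ?_, by omega⟩
        · have := hp u' h0
          rw [h1] at this
          omega
        · rw [Function.iterate_succ_apply, h1] at hij
          exact hij

theorem ptd_le {W : Type*} (lv : W → ℕ) (par : W → W)
    (hp : ∀ w, 0 < lv w → lv (par w) + 1 = lv w) (hc : (PTG lv par).Connected) (u : W) (i : ℕ)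
    (hi : i ≤ lv u) : (PTG lv par).dist u (par^[i] u) ≤ i := by
  induction i with
  | zero => simp
  | succ i ih =>
    have h1 := ih (by omega)
    have h2 := ptd_lv lv par hp u i (by omega)
    have h3 := ptd_adj lv par hp (par^[i] u) (by omega)
    have h4 : (PTG lv par).dist (par^[i] u) (par (par^[i] u)) = 1 :=
      SimpleGraph.dist_eq_one_iff_adj.mpr h3
    have h5 := hc.dist_triangle (u := u) (v := par^[i] u) (w := par (par^[i] u))
    rw [Function.iterate_succ_apply']
    omega

theorem ptd_thm {W : Type*} (h : PTTStmt W) : PTDStmt W := by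
  intro lv par r hr hp u v
  have hT := h lv par r hr hp
  have hc : (PTG lv par).Connected := hT.connected
  obtain ⟨p, hpl⟩ := hc.exists_walk_length_eq_dist u v
  obtain ⟨i, j, hi, hj, hij, hl⟩ := ptd_walk lv par hp p
  refine ⟨i, j, hi, hj, hij, le_antisymm ?_ (by omega)⟩
  have h1 := ptd_le lv par hp hc u i hi
  have h2 := ptd_le lv par hp hc v j hj
  have h3 := hc.dist_triangle (u := u) (v := par^[i] u) (w := v)
  have h4 : (PTG lv par).dist (par^[i] u) v = (PTG lv par).dist v (par^[j] v) := by
    rw [hij, SimpleGraph.dist_comm]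
  omega

end GWQ
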